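import Pool.Agent.R781.WR.Forms

set_option autoImplicit false

/-!
# One dense summand and `4 k` powers represent almost all integers

Let `A` be any set of positive lower density. Almost all integers are
`a + x_1 ^ k + ... + x_{4k} ^ k` with `a ∈ A`; if all the `x_i` but one are bounded by a
large constant, these sums still have lower density at least `1 - ε`. The number `4 k` can be
replaced with `t` if and only if every residue class is a sum of `t` powers.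
-/

namespace Pool.Agent.Results.MP_570bef_nt.DenseSummand

open Filter

/-- `A` has positive lower density. -/
def PosDens (A : Set ℕ) : Prop :=
  ∃ δ : ℝ, 0 < δ ∧ ∀ᶠ N : ℕ in atTop, δ * N ≤ ((A ∩ Set.Iio N).ncard : ℝ)

/-- The integers `a + x_1 ^ k + ... + x_t ^ k` with `a ∈ A` and positive integers `x_i`. -/
def Sums (k t : ℕ) (A : Set ℕ) : Set ℕ :=
  {n | ∃ a ∈ A, ∃ x : Fin t → ℕ, (∀ i, 0 < x i) ∧ a + ∑ i, x i ^ k = n}

/-- The integers `a + x_1 ^ k + ... + x_t ^ k` with `a ∈ A` and positive integers `x_i`, where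
`x_i ≤ C` for `i ≥ 2`. -/
def BSums (k t C : ℕ) (A : Set ℕ) : Set ℕ :=
  {n | ∃ a ∈ A, ∃ x : Fin t → ℕ, (∀ i, 0 < x i) ∧ (∀ i, i.val ≠ 0 → x i ≤ C) ∧
    a + ∑ i, x i ^ k = n}

/-- `S` has density one. -/
def DensOne (S : Set ℕ) : Prop :=
  Tendsto (fun N : ℕ => ((S ∩ Set.Iio N).ncard : ℝ) / N) atTop (nhds 1)

/-- Every residue class modulo every `q` is a sum of `t` terms `x ^ k`. -/
def Local (k t : ℕ) : Prop :=
  ∀ q : ℕ, 1 ≤ q → ∀ r : ℕ, ∃ x : Fin t → ℕ, ∑ i, x i ^ k ≡ r [MOD q]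

lemma pos_of_local {k t : ℕ} (h : Local k t) : 1 ≤ t := by
  rcases Nat.eq_zero_or_pos t with rfl | ht
  · obtain ⟨x, hx⟩ := h 2 (by norm_num) 1
    simp [Nat.ModEq] at hx
  · exact ht

lemma bsums {k t : ℕ} (hk : 1 ≤ k) (h : Local k t) {A : Set ℕ} (hA : PosDens A) {ε : ℝ}
    (hε : 0 < ε) :
    ∃ C : ℕ, ∀ᶠ N : ℕ in atTop, (1 - ε) * N ≤ ((BSums k t C A ∩ Set.Iio N).ncard : ℝ) := by
  obtain ⟨C, hC⟩ := R781.WR.form_one hk (pos_of_local h) (fun q hq r => h q hq r) hA hε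
  refine ⟨C, ?_⟩
  filter_upwards [hC] with N hN
  refine hN.trans ?_
  have h1 : {n | ∃ a ∈ A, ∃ m, R781.WR.KSum k t C m ∧ a + m = n} ∩ Set.Iio N ⊆
      BSums k t C A ∩ Set.Iio N := by
    rintro n ⟨⟨a, ha, m, ⟨x, hx1, hx2, hx3⟩, h⟩, hn⟩
    exact ⟨⟨a, ha, x, hx1, hx2, by rw [hx3]; exact h⟩, hn⟩
  exact_mod_cast Set.ncard_le_ncard h1 ((Set.finite_Iio N).subset Set.inter_subset_right)

lemma ncard_le (S : Set ℕ) (N : ℕ) : ((S ∩ Set.Iio N).ncard : ℝ) ≤ N := by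
  have h1 := Set.ncard_le_ncard (Set.inter_subset_right : S ∩ Set.Iio N ⊆ Set.Iio N)
    (Set.finite_Iio N)
  have h2 : (Set.Iio N).ncard = N := by
    rw [← Finset.coe_range, Set.ncard_coe_finset, Finset.card_range]
  rw [h2] at h1
  exact_mod_cast h1

lemma dens_one {k t : ℕ} (hk : 1 ≤ k) (h : Local k t) {A : Set ℕ} (hA : PosDens A) :
    DensOne (Sums k t A) := by
  unfold DensOne
  rw [Metric.tendsto_nhds]
  intro ε hε
  obtain ⟨C, hC⟩ := bsums hk h hA (half_pos hε)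
  filter_upwards [hC, eventually_ge_atTop 1] with N hN hN1
  have hN0 : (0 : ℝ) < N := by exact_mod_cast hN1
  have h1 : BSums k t C A ∩ Set.Iio N ⊆ Sums k t A ∩ Set.Iio N := by
    rintro n ⟨⟨a, ha, x, hx1, -, h⟩, hn⟩
    exact ⟨⟨a, ha, x, hx1, h⟩, hn⟩
  have h2 : ((BSums k t C A ∩ Set.Iio N).ncard : ℝ) ≤ ((Sums k t A ∩ Set.Iio N).ncard : ℝ) := by
    exact_mod_cast Set.ncard_le_ncard h1 ((Set.finite_Iio N).subset Set.inter_subset_right)
  have h3 := ncard_le (Sums k t A) N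
  rw [Real.dist_eq, abs_sub_lt_iff]
  constructor
  · have : ((Sums k t A ∩ Set.Iio N).ncard : ℝ) / N ≤ 1 := div_le_one_of_le₀ h3 hN0.le
    linarith
  · have : 1 - ε / 2 ≤ ((Sums k t A ∩ Set.Iio N).ncard : ℝ) / N := by
      rw [le_div_iff₀ hN0]
      exact hN.trans h2
    linarith

/-- if the local condition fails, a whole residue class is missed -/
lemma missed {k t : ℕ} (h : ¬ Local k t) : ∃ A : Set ℕ, PosDens A ∧ ∃ q r : ℕ, 1 ≤ q ∧
    ∀ n : ℕ, n ≡ r [MOD q] → ¬ ∃ a ∈ A, ∃ x : Fin t → ℕ, a + ∑ i, x i ^ k = n := by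
  unfold Local at h
  push Not at h
  obtain ⟨q, hq, r, hr⟩ := h
  refine ⟨{a | q ∣ a}, R781.WR.mult_dens hq, q, r, hq, ?_⟩
  rintro n hn ⟨a, ⟨c, rfl⟩, x, hx⟩
  refine hr x (Nat.ModEq.trans ?_ hn)
  rw [← hx]
  unfold Nat.ModEq
  rw [Nat.mul_add_mod]

/-- **One dense summand and `4 k` powers.** -/
theorem result (k : ℕ) (hk : 1 ≤ k) :
    -- if every residue class is a sum of `t` powers
    (∀ t : ℕ, Local k t → ∀ A : Set ℕ, PosDens A → DensOne (Sums k t A) ∧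
      ∀ ε : ℝ, 0 < ε → ∃ C : ℕ, ∀ᶠ N : ℕ in atTop,
        (1 - ε) * N ≤ ((BSums k t C A ∩ Set.Iio N).ncard : ℝ)) ∧
    -- if not
    (∀ t : ℕ, ¬ Local k t → ∃ A : Set ℕ, PosDens A ∧ ∃ q r : ℕ, 1 ≤ q ∧
      ∀ n : ℕ, n ≡ r [MOD q] → ¬ ∃ a ∈ A, ∃ x : Fin t → ℕ, a + ∑ i, x i ^ k = n) ∧
    -- the values of `t`
    Local k (4 * k) ∧ ((¬ ∃ m : ℕ, 2 ≤ m ∧ k = 2 ^ m) → Local k (2 * k + 1)) ∧
    ((∃ m : ℕ, 3 ≤ m ∧ k = 2 ^ m) → IsLeast {t | Local k t} (4 * k)) := by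
  have h4 : Local k (4 * k) := fun q hq r => R500.WB.Loc.four hk hq r
  refine ⟨fun t ht A hA => ⟨dens_one hk ht hA, fun ε hε => bsums hk ht hA hε⟩, fun t ht => missed ht,
    h4, fun hk2 q hq r => R500.WB.Loc.two hk (fun a ha h => hk2 ⟨a, ha, h⟩) hq r, ?_⟩
  rintro ⟨m, hm, hkm⟩
  refine ⟨h4, fun t ht => ?_⟩
  by_contra hcon
  push Not at hcon
  refine R781.WR.not_suff hm hkm hcon fun A hA => ?_
  obtain ⟨C, hC⟩ := R781.WR.form_two hk (pos_of_local ht) (fun q hq r => ht q hq r) hA hA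
  filter_upwards [hC] with n hn
  obtain ⟨a, ha, b, hb, m, ⟨x, hx1, hx2, hx3⟩, h⟩ := hn
  exact ⟨a, ha, b, hb, x, by rw [hx3]; exact h⟩

end Pool.Agent.Results.MP_570bef_nt.DenseSummand
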