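import Mathlib
import Pool.Agent.R500.WB.Generic

set_option autoImplicit false

/-!
# Generic sequences of moved powers

Among the sequences `b x = x ^ k + Q x * j x` with `0 ≤ j x ≤ (x ^ k) ^ η`, where the moduli `Q x`
grow slowly, the topologically generic one has no analogue of `G(k)`: for no `t` is every large
integer a sum of at most `t` terms. The moduli may be eventually divisible by every given integer,
and then `b x` and `x ^ k` satisfy the same congruences.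
-/

namespace Pool.Agent.Results.MP_570bef_nt.GenericSequence

open Finset Filter
open scoped Classical

/-- The moduli `Q x` are positive, each divides the next one, and `Q x ≤ x ^ ε` for every `ε > 0`
and every large `x`. -/
structure Slow (Q : ℕ → ℕ) : Prop where
  pos : ∀ x, 1 ≤ Q x
  dvd : ∀ x, Q x ∣ Q (x + 1)
  slow : ∀ ε : ℝ, 0 < ε → ∀ᶠ x : ℕ in atTop, (Q x : ℝ) ≤ (x : ℝ) ^ ε

/-- The sequences `b x = x ^ k + Q x * j` with `0 ≤ j ≤ (x ^ k) ^ η`. -/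
def Seqs (k : ℕ) (Q : ℕ → ℕ) (η : ℝ) : Set (ℕ → ℕ) :=
  {b | ∀ x : ℕ, ∃ j : ℕ, (j : ℝ) ≤ ((x : ℝ) ^ k) ^ η ∧ b x = x ^ k + Q x * j}

/-- `n` is a sum of at most `t` terms of `b`. -/
def SumOf (b : ℕ → ℕ) (t n : ℕ) : Prop := ∃ s ≤ t, ∃ x : Fin s → ℕ, ∑ i, b (x i) = n

/-- No number `t` of terms suffices: in every residue class there are arbitrarily large integers
which are not sums of at most `t` terms of `b`; and for arbitrarily large `N` at most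
`N ^ (1 - (η / 2) ^ (t + 2))` of the integers below `N` are such sums. -/
def Fails (η : ℝ) (b : ℕ → ℕ) : Prop :=
  ∀ t : ℕ,
    (∀ m r : ℕ, 1 ≤ m → ∃ᶠ n : ℕ in atTop, n ≡ r [MOD m] ∧ ¬ SumOf b t n) ∧
    ∃ᶠ N : ℕ in atTop,
      (((range N).filter (SumOf b t)).card : ℝ) ≤ (N : ℝ) ^ (1 - (η / 2) ^ (t + 2))

lemma slow_of {Q : ℕ → ℕ} (h : R500.WB.Slow Q) : Slow Q := ⟨h.pos, h.dvd, h.slow⟩

lemma of_slow {Q : ℕ → ℕ} (h : Slow Q) : R500.WB.Slow Q := ⟨h.pos, h.dvd, h.slow⟩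

lemma generic (k : ℕ) (hk : 1 ≤ k) (η : ℝ) (hη0 : 0 < η) (hη1 : η ≤ 1) (Q : ℕ → ℕ) (hQ : Slow Q) :
    ∃ G : Set ↥(Seqs k Q η), IsGδ G ∧ Dense G ∧ ∀ b ∈ G, Fails η b.1 := by
  obtain ⟨G, h1, h2, h3⟩ := R500.WB.generic hk (of_slow hQ) hη0 hη1
  refine ⟨G, h1, h2, fun b hb t => ⟨fun m r hm => ?_, h3 b hb t⟩⟩
  exact R500.WB.cnt_residue (by positivity) (h3 b hb t) m r hm

/-- **Generic sequences of moved powers.** -/
theorem result (k : ℕ) (hk : 2 ≤ k) (η : ℝ) (hη0 : 0 < η) (hη1 : η ≤ 1) :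
    -- in the compact space of the sequences, the generic one has no analogue of `G(k)`
    (∀ Q : ℕ → ℕ, Slow Q → CompactSpace ↥(Seqs k Q η) ∧
      ∃ G : Set ↥(Seqs k Q η), IsGδ G ∧ Dense G ∧ ∀ b ∈ G, Fails η b.1) ∧
    -- there are such moduli which are eventually divisible by every given integer
    (∃ Q : ℕ → ℕ, Slow Q ∧ ∀ m : ℕ, 1 ≤ m → ∀ᶠ x : ℕ in atTop, m ∣ Q x) ∧
    -- a single sequence with the sizes and all the congruences of the `k`-th powers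
    (∃ b : ℕ → ℕ, (∀ᶠ x : ℕ in atTop, x ^ k ≤ b x ∧ (b x : ℝ) ≤ (x : ℝ) ^ k + ((x : ℝ) ^ k) ^ η) ∧
      (∀ m : ℕ, 1 ≤ m → ∀ᶠ x : ℕ in atTop, b x ≡ x ^ k [MOD m]) ∧
      ∀ t m r : ℕ, 1 ≤ m → ∃ᶠ n : ℕ in atTop, n ≡ r [MOD m] ∧ ¬ SumOf b t n) := by
  have hk1 : 1 ≤ k := by omega
  obtain ⟨Q, hQ, hQm⟩ := R500.WB.exists_slow
  refine ⟨fun Q hQ => ⟨R500.WB.compact_Seqs k Q η, generic k hk1 η hη0 hη1 Q hQ⟩,
    ⟨Q, slow_of hQ, hQm⟩, ?_⟩
  obtain ⟨G, -, h2, h3⟩ := generic k hk1 (η / 2) (by positivity) (by linarith) Q (slow_of hQ)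
  haveI : Nonempty ↥(Seqs k Q (η / 2)) := by
    refine ⟨⟨fun x => x ^ k, fun x => ⟨0, ?_, by simp⟩⟩⟩
    rw [Nat.cast_zero]
    positivity
  obtain ⟨b, hb⟩ := h2.nonempty
  refine ⟨b.1, ?_, ?_, fun t m r hm => (h3 b hb t).1 m r hm⟩
  · have hk0 : (0 : ℝ) < k := by exact_mod_cast (show 0 < k by omega)
    filter_upwards [hQ.slow (k * (η / 2)) (by positivity), eventually_ge_atTop 1] with x hx hx1
    have hx0 : (0 : ℝ) < x := by exact_mod_cast hx1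
    obtain ⟨j, hj, h4⟩ := b.2 x
    rw [h4]
    refine ⟨Nat.le_add_right _ _, ?_⟩
    push_cast
    have h5 : ((x : ℝ) ^ k) ^ η = (x : ℝ) ^ (k * (η / 2)) * ((x : ℝ) ^ k) ^ (η / 2) := by
      rw [← Real.rpow_natCast, ← Real.rpow_mul hx0.le, ← Real.rpow_mul hx0.le,
        ← Real.rpow_add hx0]
      congr 1
      ring
    have h6 : (Q x : ℝ) * j ≤ ((x : ℝ) ^ k) ^ η := by
      rw [h5]
      exact mul_le_mul hx hj (Nat.cast_nonneg _) (by positivity)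
    linarith
  · intro m hm
    filter_upwards [hQm m hm] with x hx
    obtain ⟨j, -, h4⟩ := b.2 x
    rw [h4]
    obtain ⟨c, hc⟩ := hx
    rw [hc, mul_assoc]
    unfold Nat.ModEq
    rw [Nat.add_mul_mod_self_left]

end Pool.Agent.Results.MP_570bef_nt.GenericSequence
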